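import Pool.Agent.J4H4.NG.Stm
import Pool.Agent.J4H8.DN.H
import Pool.Agent.W169.HF.Small

set_option autoImplicit false

/-! # Project NG (helper4): REP, the representation of `H_t` for negative times (helper1) -/

namespace Pool.Agent.J4H1.NG

open Complex MeasureTheory Filter Topology Set
open scoped ComplexConjugate
open Pool.Agent.J4H4.NG
open Pool.Agent.J4H1.JP (Xi Xi_neg)
open Pool.Agent.J4H2.DN (Phi Hd)
open Pool.Agent.W169.HF (heat Slow hs heat_all hs_all)
open Pool.Agent.Helper242.KK (Ph Ph_pos continuous_Ph)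
open Pool.Agent.J4H8.DN (slow_Xi Xi_conj int_Ph_gauss Xi_int Phi_eq)

theorem gint_c (c : ℝ) : ∫ v : ℝ, cexp (2 * (c : ℂ) * I * v) * ((Real.exp (-v ^ 2) : ℝ) : ℂ) =
    ((Real.sqrt Real.pi * Real.exp (-c ^ 2) : ℝ) : ℂ) := by
  have h := fourierIntegral_gaussian (b := 1) (by simp) (2 * (c : ℂ))
  have e1 : (fun v : ℝ => cexp (2 * (c : ℂ) * I * v) * ((Real.exp (-v ^ 2) : ℝ) : ℂ)) =
      fun v : ℝ => cexp (I * (2 * (c : ℂ)) * v) * cexp (-1 * (v : ℂ) ^ 2) := by
    funext v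
    rw [ofReal_exp]
    push_cast
    ring_nf
  rw [e1, h]
  have e2 : ((Real.pi : ℂ) / 1) ^ (1 / 2 : ℂ) = ((Real.sqrt Real.pi : ℝ) : ℂ) := by
    rw [div_one, Real.sqrt_eq_rpow, ofReal_cpow Real.pi_pos.le]
    norm_num
  rw [e2]
  push_cast
  congr 2
  ring

theorem EE_eq {a : ℝ} (ha : 0 < a) (w : ℂ) :
    EE a w = ∫ u : ℝ, ((Ph u * Real.exp (-a * u ^ 2) : ℝ) : ℂ) * cexp (w * u) := by
  set q := Real.sqrt a with hq
  have hq2 : q ^ 2 = a := Real.sq_sqrt ha.le
  unfold EE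
  have h1 : ∀ v : ℝ, ((Real.exp (-v ^ 2) : ℝ) : ℂ) * Xi (w + ((2 * Real.sqrt a * v : ℝ) : ℂ) * I) =
      ∫ u : ℝ, (cexp (2 * ((q * u : ℝ) : ℂ) * I * v) * ((Real.exp (-v ^ 2) : ℝ) : ℂ)) *
        (((Ph u : ℝ) : ℂ) * cexp (w * u)) := by
    intro v
    rw [Xi_int, ← integral_const_mul]
    congr 1
    funext u
    have e : cexp ((w + ((2 * Real.sqrt a * v : ℝ) : ℂ) * I) * u) =
        cexp (w * u) * cexp (2 * ((q * u : ℝ) : ℂ) * I * v) := by
      rw [← Complex.exp_add]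
      congr 1
      push_cast
      rw [hq]
      ring
    rw [e]
    ring
  simp_rw [h1]
  rw [integral_integral_swap]
  · have h2 : ∀ u : ℝ, ∫ v : ℝ, (cexp (2 * ((q * u : ℝ) : ℂ) * I * v) * ((Real.exp (-v ^ 2) : ℝ) : ℂ)) *
        (((Ph u : ℝ) : ℂ) * cexp (w * u)) =
        (Real.sqrt Real.pi : ℂ) * (((Ph u * Real.exp (-a * u ^ 2) : ℝ) : ℂ) * cexp (w * u)) := by
      intro u
      rw [integral_mul_const, gint_c]
      have : -(q * u) ^ 2 = -a * u ^ 2 := by rw [mul_pow, hq2]; ring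
      rw [this]
      push_cast
      ring
    simp_rw [h2]
    rw [integral_const_mul, ← mul_assoc]
    have : ((1 / Real.sqrt Real.pi : ℝ) : ℂ) * (Real.sqrt Real.pi : ℂ) = 1 := by
      rw [← ofReal_mul, one_div, inv_mul_cancel₀ (Real.sqrt_pos.2 Real.pi_pos).ne', ofReal_one]
    rw [this, one_mul]
  · -- integrability on the product
    have hg : Integrable fun v : ℝ => ((Real.exp (-v ^ 2) : ℝ) : ℂ) := by
      have := (integrable_exp_neg_mul_sq one_pos).ofReal (𝕜 := ℂ)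
      simpa using this
    have hP : Integrable fun u : ℝ => ((Ph u : ℝ) : ℂ) * cexp (w * u) := by
      have := int_Ph_gauss 0 w
      simpa using this
    have hprod := hg.mul_prod hP
    have hc : Continuous (Function.uncurry fun (v u : ℝ) =>
          (cexp (2 * ((q * u : ℝ) : ℂ) * I * v) * ((Real.exp (-v ^ 2) : ℝ) : ℂ)) *
            (((Ph u : ℝ) : ℂ) * cexp (w * u))) := by
      have := continuous_Ph
      unfold Function.uncurry
      fun_prop
    refine hprod.mono hc.aestronglyMeasurable (Eventually.of_forall fun x => ?_)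
    simp only [Function.uncurry]
    rw [norm_mul, norm_mul, norm_mul (((Real.exp (-x.1 ^ 2) : ℝ) : ℂ))]
    have e : ‖cexp (2 * ((q * x.2 : ℝ) : ℂ) * I * x.1)‖ = 1 := by
      have e' : 2 * ((q * x.2 : ℝ) : ℂ) * I * x.1 = ((2 * (q * x.2) * x.1 : ℝ) : ℂ) * I := by
        push_cast; ring
      rw [e', Complex.norm_exp_ofReal_mul_I]
    rw [e, one_mul]

theorem EE_heat (a : ℝ) (w : ℂ) : EE a w = heat a (fun z => Xi (I * z)) (-I * w) := by
  unfold EE heat
  congr 1
  refine integral_congr_ae (Eventually.of_forall fun v => ?_)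
  simp only
  congr 2
  have : I * (-I * w) = w := by rw [← mul_assoc, mul_neg, I_mul_I]; ring
  rw [mul_add, this]
  ring

theorem slow_rot : Slow (fun z => Xi (I * z)) := by
  refine ⟨slow_Xi.1.comp (by fun_prop), fun δ hδ => ?_⟩
  obtain ⟨K, hK, h⟩ := slow_Xi.2 δ hδ
  refine ⟨K, hK, fun z => ?_⟩
  have := h (I * z)
  rwa [norm_mul, norm_I, one_mul] at this

theorem EE_diff {a : ℝ} (ha : 0 < a) : Differentiable ℂ (EE a) := by
  have h1 : EE a = fun w => heat a (fun z => Xi (I * z)) (-I * w) := funext (EE_heat a)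
  rw [h1, heat_all _ slow_rot a ha.le]
  exact (hs_all _ slow_rot a).2.1.1.comp (by fun_prop)

theorem EE_neg (a : ℝ) (w : ℂ) : EE a (-w) = EE a w := by
  unfold EE
  congr 1
  rw [← integral_neg_eq_self]
  refine integral_congr_ae (Eventually.of_forall fun v => ?_)
  simp only
  rw [neg_sq, ← Xi_neg]
  congr 2
  push_cast
  ring

theorem EE_conj (a : ℝ) (w : ℂ) : EE a ((starRingEnd ℂ) w) = (starRingEnd ℂ) (EE a w) := by
  unfold EE
  rw [map_mul, Complex.conj_ofReal, ← integral_conj]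
  congr 1
  rw [← integral_neg_eq_self]
  refine integral_congr_ae (Eventually.of_forall fun v => ?_)
  simp only
  rw [neg_sq, map_mul, Complex.conj_ofReal, ← Xi_conj, map_add, map_mul, Complex.conj_ofReal, conj_I]
  congr 2
  push_cast
  ring

theorem Hd_neg {b : ℝ} (hb : 0 < b) (z : ℂ) : Hd (-b) z = 1 / 8 * EE (b / 4) (I * z / 2) := by
  rw [EE_eq (by positivity)]
  have h1 : (∫ u : ℝ, ((Ph u * Real.exp (-(b / 4) * u ^ 2) : ℝ) : ℂ) * cexp (I * z / 2 * u)) =
      2 * ∫ x : ℝ, ((Ph (2 * x) * Real.exp (-(b / 4) * (2 * x) ^ 2) : ℝ) : ℂ) *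
        cexp (I * z / 2 * ((2 * x : ℝ) : ℂ)) := by
    have := Measure.integral_comp_mul_left (fun u : ℝ => ((Ph u * Real.exp (-(b / 4) * u ^ 2) : ℝ) : ℂ) *
      cexp (I * z / 2 * u)) 2
    rw [this]
    rw [abs_of_pos (by norm_num : (0 : ℝ) < 2⁻¹), Complex.real_smul]
    push_cast
    ring
  set g : ℝ → ℂ := fun x => ((Real.exp (-b * x ^ 2) * Phi x : ℝ) : ℂ) * cexp (I * z * x) with hg
  have h2 : ∀ x : ℝ, ((Ph (2 * x) * Real.exp (-(b / 4) * (2 * x) ^ 2) : ℝ) : ℂ) *
        cexp (I * z / 2 * ((2 * x : ℝ) : ℂ)) = 2 * g x := by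
    intro x
    simp only [hg]
    rw [Phi_eq]
    unfold Ph
    have e1 : 2 * x / 2 = x := by ring
    have e2 : -(b / 4) * (2 * x) ^ 2 = -b * x ^ 2 := by ring
    have e3 : I * z / 2 * ((2 * x : ℝ) : ℂ) = I * z * x := by push_cast; ring
    rw [e1, e2, e3]
    push_cast
    ring
  have hint : Integrable g := by
    have h3 := (int_Ph_gauss (-(b / 4)) (I * z / 2)).comp_mul_left' (two_ne_zero)
    have h4 := h3.const_mul (1 / 2)
    refine h4.congr (Eventually.of_forall fun x => ?_)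
    have := h2 x
    simp only at this ⊢
    rw [this]; ring
  rw [h1]
  simp_rw [h2]
  rw [integral_const_mul]
  -- split
  have h5 : ∫ x : ℝ, g x = ∫ x in Ioi (0 : ℝ), (g (-x) + g x) := by
    rw [integral_add, integral_comp_neg_Ioi (0 : ℝ) g, neg_zero,
      ← intervalIntegral.integral_Iic_add_Ioi hint.integrableOn hint.integrableOn]
    · exact hint.comp_neg.integrableOn
    · exact hint.integrableOn
  rw [h5]
  have h6 : ∀ x : ℝ, g (-x) + g x = 2 * (((Real.exp (-b * x ^ 2) * Phi x : ℝ) : ℂ) * Complex.cos (z * x)) := by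
    intro x
    simp only [hg]
    have e1 : Phi (-x) = Phi x := by rw [Phi_eq, Phi_eq, Pool.Agent.Helper242.RK.Phi_even]
    rw [e1, Complex.cos]
    have e2 : (-x) ^ 2 = x ^ 2 := by ring
    rw [e2]
    have e3 : I * z * ((-x : ℝ) : ℂ) = -(z * x) * I := by push_cast; ring
    have e4 : I * z * (x : ℂ) = z * x * I := by ring
    rw [e3, e4]
    ring
  simp_rw [h6]
  rw [integral_const_mul]
  unfold Hd
  ring

theorem t_REP : S_REP := fun b hb =>
  ⟨fun z => Hd_neg hb z, EE_diff (by positivity), EE_neg _, EE_conj _⟩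

end Pool.Agent.J4H1.NG
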